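import Mathlib
import Pool.Agent.helper972_bl.G7
import Pool.Agent.helper972_bl.ZP
set_option autoImplicit false

/-!
# The restriction conjecture for the paraboloid, tested on Brascamp-Lieb weights of rank at most two

`Ef(x) = ∫_{[-1,1]^n} f(ξ) e^{2πi(ξ·x' + |ξ|² x_{n+1})} dξ`, `x ∈ ℝ^(n+1)`, `n ≥ 2`. Let
`q > 2(n+1)/n` be any exponent of the conjectured range and `r = q/(q-2)`, `1/r = 1 - 2/q`. By
duality the conjecture says that `∫ |Ef|² W ≤ C ‖W‖_r ‖f‖_∞²` for all weights `W ≥ 0`.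

Let `π_i`, `λ_j` be linear maps of `ℝ^(n+1)` onto planes and lines, with weights `p_i`, `s_j > 0`,
for which the Brascamp-Lieb inequality for sets holds with some constant `c`:
`|{x : π_i x ∈ A_i, λ_j x ∈ B_j}| ≤ c ∏ |A_i|^{p_i} ∏ |B_j|^{s_j}`.
Then for all measurable sets, with `T = {x : π_i x ∈ A_i, λ_j x ∈ B_j}`,

* (Sets) `∫_T |Ef|² ≤ C (c ∏ |A_i|^{p_i} ∏ |B_j|^{s_j})^{1/r} ‖f‖_∞²`, where `C` only depends on `n`
  and `q`, not on the datum;
* (Weights) the same for the weights `∏ u_i(π_i x) ∏ w_j(λ_j x)`, with the weak `L^{r/p_i}`,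
  `L^{r/s_j}` norms of the factors.

The right hand sides are the bounds of `‖W‖_r` which the Brascamp-Lieb inequality gives.

* (Graphs) Such data are: all fractional perfect matchings on the coordinates `⟪v_t, x⟫` of ANY
  basis `v` of `ℝ^(n+1)` (Finner), with `c` the Jacobian of the coordinates.
* (Levels) In particular, for any splitting of `ℝ^(n+1)` into planes and lines, product sets `P` on
  which `|Ef| ≥ l` have measure at most `C (‖f‖_∞ / l)^q`.
-/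

namespace Pool.Agent.Results.MP_b7167f_an.BrascampLieb

open MeasureTheory Set Complex
open Pool.Agent.H972BL (E Dat weakNorm TotalOne cell)
open scoped ENNReal NNReal RealInnerProductSpace

/-- the cube `[-1, 1]^n` -/
def cube (n : ℕ) : Set (E n) := {ξ | ∀ i, ξ i ∈ Icc (-1 : ℝ) 1}

/-- the extension operator of the truncated paraboloid in `ℝ^(n+1)`:
`∫_{[-1,1]^n} f(ξ) exp(2πi(ξ·x' + |ξ|² x_{n+1})) dξ` -/
noncomputable def ext {n : ℕ} (f : E n → ℂ) (x : E (n + 1)) : ℂ :=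
  ∫ ξ in cube n, f ξ * Complex.exp (2 * Real.pi * I *
    ((∑ i : Fin n, ξ i * x i.castSucc + ‖ξ‖ ^ 2 * x (Fin.last n) : ℝ) : ℂ))

/-- the `L^∞([-1,1]^n)` norm -/
noncomputable def supNorm {n : ℕ} (f : E n → ℂ) : ℝ≥0∞ := eLpNorm f ∞ (volume.restrict (cube n))

/-- the extension estimate on Brascamp-Lieb sets, with a constant independent of the datum -/
def Sets (n : ℕ) (q : ℝ) : Prop :=
  ∃ C : ℝ≥0, ∀ (a b : ℕ) (D : Dat (n + 1) a b) (c : ℝ≥0) (f : E n → ℂ),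
    D.Admissible → D.BL c → MemLp f ∞ (volume.restrict (cube n)) →
    ∀ (A : Fin a → Set (ℝ × ℝ)) (B : Fin b → Set ℝ),
      (∀ i, MeasurableSet (A i)) → (∀ j, MeasurableSet (B j)) →
      ∫⁻ x in D.set A B, ‖ext f x‖ₑ ^ 2 ≤
        C * (c * ((∏ i, volume (A i) ^ D.p i) * ∏ j, volume (B j) ^ D.s j)) ^ (1 - 2 / q) *
          supNorm f ^ 2

/-- the extension estimate on Brascamp-Lieb weights -/
def Weights (n : ℕ) (q : ℝ) : Prop :=
  ∃ C R : ℝ≥0, ∀ (a b : ℕ) (D : Dat (n + 1) a b) (c : ℝ≥0) (f : E n → ℂ),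
    D.Admissible → D.BL c → MemLp f ∞ (volume.restrict (cube n)) →
    ∀ (u : Fin a → ℝ × ℝ → ℝ≥0∞) (w : Fin b → ℝ → ℝ≥0∞),
      (∀ i, Measurable (u i)) → (∀ j, Measurable (w j)) →
      ∫⁻ x, D.weight u w x * ‖ext f x‖ₑ ^ 2 ≤
        C * R ^ (a + b) * (c : ℝ≥0∞) ^ (1 - 2 / q) *
          ((∏ i, weakNorm (D.p i * (1 - 2 / q)) (u i)) *
            ∏ j, weakNorm (D.s j * (1 - 2 / q)) (w j)) * supNorm f ^ 2

/-- fractional perfect matchings on the coordinates of any basis are Brascamp-Lieb data -/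
def Graphs (d : ℕ) : Prop :=
  ∀ (a b : ℕ) (v : Fin d → E d) (I J : Fin a → Fin d) (K : Fin b → Fin d) (p : Fin a → ℝ)
    (s : Fin b → ℝ), LinearIndependent ℝ v → TotalOne I J K p s →
    (Dat.ofGraph v I J K p s).Admissible ∧ cell v ≠ ∞ ∧
      (Dat.ofGraph v I J K p s).BL (cell v).toNNReal

/-- product sets inside superlevel sets, for all splittings into planes and lines -/
def Levels (n : ℕ) (q : ℝ) : Prop :=
  ∃ C : ℝ≥0, ∀ (k m : ℕ) (σ : (Fin k ⊕ Fin k) ⊕ Fin m ≃ Fin (n + 1)) (v : Fin (n + 1) → E (n + 1))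
    (f : E n → ℂ), LinearIndependent ℝ v → MemLp f ∞ (volume.restrict (cube n)) →
    ∀ (A : Fin k → Set (ℝ × ℝ)) (B : Fin m → Set ℝ),
      (∀ i, MeasurableSet (A i)) → (∀ j, MeasurableSet (B j)) → ∀ l : ℝ, 0 < l →
      (∀ x ∈ (Dat.ofBasis v σ).set A B, l ≤ ‖ext f x‖) →
      volume ((Dat.ofBasis v σ).set A B) ≤ C * (supNorm f / ENNReal.ofReal l) ^ q

theorem result (n : ℕ) (q : ℝ) (hn : 2 ≤ n) (hq : 2 * ((n : ℝ) + 1) / n < q) :
    Sets n q ∧ Weights n q ∧ Graphs (n + 1) ∧ Levels n q := by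
  obtain ⟨N, rfl⟩ : ∃ N, n = N + 1 := ⟨n - 1, by omega⟩
  have hN : 1 ≤ N := by omega
  have hN' : (1 : ℝ) ≤ N := by exact_mod_cast hN
  push_cast at hq
  have h1 : (0 : ℝ) < (N : ℝ) + 1 := by linarith
  rw [div_lt_iff₀ h1] at hq
  have hq2 : 2 < q := by nlinarith
  have hr2 : q / (q - 2) < (N : ℝ) + 2 := by
    rw [div_lt_iff₀ (by linarith)]
    nlinarith
  obtain ⟨⟨C1, hC1⟩, ⟨C2, R, hC2⟩, ⟨C3, hC3⟩⟩ := Pool.Agent.H972BL.all N
    (Pool.Agent.H972BL.Par N) (Pool.Agent.H972BL.par_good N) q hq2 hr2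
  refine ⟨⟨C1, fun a b D c f hD hBL hf A B hA hB => ?_⟩,
    ⟨C2, R, fun a b D c f hD hBL hf u w hu hw => ?_⟩,
    fun a b v I J K p s hv h => ⟨Pool.Agent.H972BL.graph_adm v hv I J K p s h,
      Pool.Agent.H972BL.cell_ne v hv, Pool.Agent.H972BL.graph_BL v hv I J K p s h⟩,
    ⟨C3, fun k m σ v f hv hf A B hA hB l hl hsub => ?_⟩⟩
  · have h := hC1 a b D c hD hBL _ _ (Pool.Agent.H972BL.par_mem N f hf) A B hA hB
    rw [Pool.Agent.H972BL.par_norm N f hf] at h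
    exact h
  · have h := hC2 a b D c hD hBL _ _ (Pool.Agent.H972BL.par_mem N f hf) u w hu hw
    rw [Pool.Agent.H972BL.par_norm N f hf] at h
    exact h
  · have h := hC3 k m σ v hv _ _ (Pool.Agent.H972BL.par_mem N f hf) ENNReal.toReal_nonneg A B hA hB
      l hl (fun x hx => by
        rw [← ofReal_norm]
        exact ENNReal.ofReal_le_ofReal (hsub x hx))
    have e : ENNReal.ofReal
        (eLpNorm f ∞ (volume.restrict (Pool.Agent.H972PB.cube (N + 1)))).toReal =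
        eLpNorm f ∞ (volume.restrict (Pool.Agent.H972PB.cube (N + 1))) :=
      ENNReal.ofReal_toReal hf.2.ne
    rw [e] at h
    exact h

end Pool.Agent.Results.MP_b7167f_an.BrascampLieb
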