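import Mathlib
import Pool.Agent.Helper969.TS.C3
set_option autoImplicit false

/-!
# The restriction conjecture for the paraboloid: time slices of Schroedinger waves as densities

Let `m ≥ 1` and `d = m + 1`, so that the extension operator of the paraboloid in `ℝ^d` acts on
functions on `ℝ^m` and the conjectured range is `q > 2d/(d-1) = 2(m+1)/m`. Let `f ∈ L²(ℝ^m)` be
arbitrary and let `u(a, ·) = E f(·, a)`, the solution at time `a` of the free Schroedinger equation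
whose Fourier transform at time `0` is `f` (for each `a` it is an `L²` limit). Every function in
`L²(ℝ^m)` is the slice `u(a, ·)` of such a wave, for any prescribed `a`. Let `χ` be a smooth function
with compact support. We consider the densities `χ(ξ) u(a, ξ)`, `a ∈ ℝ`.

* (Almost every time) For almost every `a` the extension `E(χ u(a, ·))` is in `L^q(ℝ^d)` for all
  `q > 2d/(d-1)`.
* (Dimension) For `2d/(d-1) < q < 2(d+1)/(d-1)` the set of all `a ∈ ℝ` for which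
  `E(χ u(a, ·))` is not in `L^q(ℝ^d)` has Hausdorff dimension at most
  `(2(d+1) - (d-1)q) / ((d-1)(q-2))`. This number is less than `1`, and it decreases from `1` to `0`
  in this range of `q`.
* (Fractal averages) If `α` is larger than this number, then for every measure `μ` on an interval of
  length `1` with `μ(B(a, r)) ≤ c r^α` for all `a` and `r`, the integral over `μ` of the `q`-th power
  of the `L^q(ℝ^d)` norm of `E(χ u(a, ·))` is at most `C c ‖f‖_{L²}^q`, with a constant `C` which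
  depends on `m`, `q`, `α`, `χ` only.

For a single time such estimates are false for general `f ∈ L²` when `q < 2(d+1)/(d-1)`.
-/

namespace Pool.Agent.Results.MP_b7167f_an.TimeSlices

open MeasureTheory Set Metric Complex Filter
open scoped ENNReal NNReal Topology ContDiff

/-- The extension operator of the paraboloid in `ℝ^(m+1)`:
`E g(x, t) = ∫ g(ξ) exp(2πi(ξ·x + |ξ|² t)) dξ`. -/
noncomputable def ext {m : ℕ} (g : (Fin m → ℝ) → ℂ) (z : (Fin m → ℝ) × ℝ) : ℂ :=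
  ∫ ξ, g ξ * cexp (2 * Real.pi * I * ((∑ i, ξ i * z.1 i + (∑ i, ξ i ^ 2) * z.2 : ℝ) : ℂ))

/-- `f` is square integrable -/
def SquareIntegrable {m : ℕ} (f : (Fin m → ℝ) → ℂ) : Prop :=
  Measurable f ∧ ∫⁻ y, ‖f y‖ₑ ^ 2 < ⊤

/-- For every `a` the function `u a` is the limit in `L²(ℝ^m)`, as `N → ∞`, of
`x ↦ ∫_{[-N,N]^m} f(y) exp(2πi(y·x + |y|² a)) dy`. -/
def Slices {m : ℕ} (f : (Fin m → ℝ) → ℂ) (u : ℝ → (Fin m → ℝ) → ℂ) : Prop :=
  ∀ a : ℝ, Measurable (u a) ∧ Tendsto (fun N : ℕ => ∫⁻ x, ‖u a x -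
    ext ((Icc (fun _ : Fin m => -(N : ℝ)) (fun _ => (N : ℝ))).indicator f) (x, a)‖ₑ ^ 2) atTop (𝓝 0)

theorem ext_eq {m : ℕ} (g : (Fin m → ℝ) → ℂ) (x : Fin m → ℝ) (a : ℝ) :
    ext g (x, a) = Pool.Agent.Helper969.TS.W g a x := by
  unfold ext Pool.Agent.Helper969.TS.W
  congr 1
  ext y
  rw [Pool.Agent.Helper969.TS.em_exp, Finset.sum_add_distrib, ← Finset.sum_mul]

theorem sol_of {m : ℕ} {f : (Fin m → ℝ) → ℂ} {u : ℝ → (Fin m → ℝ) → ℂ} (h : Slices f u) :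
    Pool.Agent.Helper969.TS.Sol f u := by
  refine ⟨fun a => (h a).1, fun a => ?_⟩
  have h1 := (h a).2
  simp only [ext_eq] at h1
  exact h1

theorem lint_eq {m : ℕ} {φ : (Fin m → ℝ) → ℂ} {u : ℝ → (Fin m → ℝ) → ℂ}
    (hφ : Measurable (Pool.Agent.Helper969.TS.ch φ)) (hu : ∀ a, Measurable (u a)) (a q : ℝ) :
    Measurable (ext fun ξ => Pool.Agent.Helper969.TS.ch φ ξ * u a ξ) ∧
    ∫⁻ z, ‖ext (fun ξ => Pool.Agent.Helper969.TS.ch φ ξ * u a ξ) z‖ₑ ^ q =
      ∫⁻ t, ∫⁻ x, ‖Pool.Agent.Helper969.TS.X φ u a t x‖ₑ ^ q := by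
  have h1 : Measurable (ext fun ξ => Pool.Agent.Helper969.TS.ch φ ξ * u a ξ) := by
    have h2 := (Pool.Agent.Helper969.TS.W_meas2 (f := fun ξ =>
      Pool.Agent.Helper969.TS.ch φ ξ * u a ξ) (hφ.mul (hu a))).comp measurable_swap
    have h3 : (ext fun ξ => Pool.Agent.Helper969.TS.ch φ ξ * u a ξ) =
        (fun z : ℝ × (Fin m → ℝ) => Pool.Agent.Helper969.TS.W (fun ξ =>
          Pool.Agent.Helper969.TS.ch φ ξ * u a ξ) z.1 z.2) ∘ Prod.swap := by
      ext z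
      exact ext_eq _ z.1 z.2
    rw [h3]
    exact h2
  refine ⟨h1, ?_⟩
  rw [Measure.volume_eq_prod, lintegral_prod_symm' _ (h1.enorm.pow_const q)]
  simp only [ext_eq]
  rfl

/-- **Theorem.** -/
theorem result (m : ℕ) (hm : 1 ≤ m) (χ : (Fin m → ℝ) → ℂ) (hχ : ContDiff ℝ ∞ χ)
    (hχc : HasCompactSupport χ) :
    (∀ (f : (Fin m → ℝ) → ℂ) (u : ℝ → (Fin m → ℝ) → ℂ), SquareIntegrable f → Slices f u →
      ∀ᵐ a : ℝ, ∀ q : ℝ, 2 * ((m : ℝ) + 1) / m < q →
        MemLp (ext fun ξ => χ ξ * u a ξ) (ENNReal.ofReal q)) ∧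
    (∀ q : ℝ, 2 * ((m : ℝ) + 1) / m < q → q < 2 * ((m : ℝ) + 2) / m →
      ∀ (f : (Fin m → ℝ) → ℂ) (u : ℝ → (Fin m → ℝ) → ℂ), SquareIntegrable f → Slices f u →
        dimH {a : ℝ | ¬ MemLp (ext fun ξ => χ ξ * u a ξ) (ENNReal.ofReal q)} ≤
          ENNReal.ofReal ((2 * ((m : ℝ) + 2) - m * q) / (m * (q - 2)))) ∧
    (∀ q α : ℝ, 2 * ((m : ℝ) + 1) / m < q → q < 2 * ((m : ℝ) + 2) / m →
      (2 * ((m : ℝ) + 2) - m * q) / (m * (q - 2)) < α → ∃ C : ℝ≥0,
      ∀ (f : (Fin m → ℝ) → ℂ) (u : ℝ → (Fin m → ℝ) → ℂ), SquareIntegrable f → Slices f u →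
        ∀ (A : ℝ) (μ : Measure ℝ) (c : ℝ≥0),
          (∀ a r : ℝ, 0 < r → μ (closedBall a r) ≤ c * ENNReal.ofReal (r ^ α)) →
          μ (Icc A (A + 1))ᶜ = 0 →
          ∫⁻ a, (∫⁻ z, ‖ext (fun ξ => χ ξ * u a ξ) z‖ₑ ^ q) ∂μ ≤
            C * c * (∫⁻ y, ‖f y‖ₑ ^ 2) ^ (q / 2)) := by
  obtain ⟨φ, hφ, rfl⟩ := Pool.Agent.Helper969.TS.exists_cut χ hχ hχc
  have hχm : Measurable (Pool.Agent.Helper969.TS.ch φ) := hχ.continuous.measurable
  have hm0 : (0 : ℝ) < m := by exact_mod_cast hm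
  have h2m : (2 : ℝ) < 2 * ((m : ℝ) + 1) / m := by
    rw [lt_div_iff₀ hm0]
    linarith
  have key : ∀ (u : ℝ → (Fin m → ℝ) → ℂ) (hu : ∀ a, Measurable (u a)) (a q : ℝ), 0 < q →
      (MemLp (ext fun ξ => Pool.Agent.Helper969.TS.ch φ ξ * u a ξ) (ENNReal.ofReal q) ↔
        ∫⁻ t, ∫⁻ x, ‖Pool.Agent.Helper969.TS.X φ u a t x‖ₑ ^ q ≠ ⊤) := by
    intro u hu a q hq
    obtain ⟨h1, h2⟩ := lint_eq hχm hu a q
    rw [← h2, MemLp, eLpNorm_lt_top_iff_lintegral_rpow_enorm_lt_top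
      (by rw [Ne, ENNReal.ofReal_eq_zero, not_le]; exact hq) ENNReal.ofReal_ne_top,
      ENNReal.toReal_ofReal hq.le]
    exact ⟨fun h => h.2.ne, fun h => ⟨h1.aestronglyMeasurable, lt_top_iff_ne_top.2 h⟩⟩
  have hdim : ∀ q : ℝ, 2 * ((m : ℝ) + 1) / m < q → q < 2 * ((m : ℝ) + 2) / m →
      ∀ (f : (Fin m → ℝ) → ℂ) (u : ℝ → (Fin m → ℝ) → ℂ), SquareIntegrable f → Slices f u →
        dimH {a : ℝ | ∫⁻ t, ∫⁻ x, ‖Pool.Agent.Helper969.TS.X φ u a t x‖ₑ ^ q = ⊤} ≤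
          ENNReal.ofReal ((2 * ((m : ℝ) + 2) - m * q) / (m * (q - 2))) := by
    intro q hq hq2 f u hf hu
    exact Pool.Agent.Helper969.TS.dim_gen hm q hq hq2 f φ hf.1 hf.2.ne hφ (sol_of hu)
  refine ⟨?_, ?_, ?_⟩
  · intro f u hf hu
    set qk : ℕ → ℝ := fun k => 2 * ((m : ℝ) + 1) / m + 1 / (m * ((k : ℝ) + 1)) with hqk
    have hq1 : ∀ k, 2 * ((m : ℝ) + 1) / m < qk k := by
      intro k
      rw [hqk]
      have : 0 < 1 / (m * ((k : ℝ) + 1)) := by positivity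
      simp only
      linarith
    have hq2 : ∀ k, qk k < 2 * ((m : ℝ) + 2) / m := by
      intro k
      rw [hqk]
      have h1 : 1 / (m * ((k : ℝ) + 1)) ≤ 1 / m := by
        apply one_div_le_one_div_of_le hm0
        have : (0 : ℝ) ≤ k := Nat.cast_nonneg k
        nlinarith
      have h2 : 2 * ((m : ℝ) + 2) / m = 2 * ((m : ℝ) + 1) / m + 2 / m := by ring
      have h3 : 1 / (m : ℝ) < 2 / m := by
        apply div_lt_div_of_pos_right (by norm_num) hm0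
      simp only
      linarith
    have hnull : ∀ k, ∀ᵐ a : ℝ,
        ∫⁻ t, ∫⁻ x, ‖Pool.Agent.Helper969.TS.X φ u a t x‖ₑ ^ qk k ≠ ⊤ := by
      intro k
      have h1 := hdim (qk k) (hq1 k) (hq2 k) f u hf hu
      have h2 : dimH {a : ℝ | ∫⁻ t, ∫⁻ x, ‖Pool.Agent.Helper969.TS.X φ u a t x‖ₑ ^ qk k = ⊤} <
          ((1 : ℝ≥0) : ℝ≥0∞) := by
        refine lt_of_le_of_lt h1 ?_
        rw [ENNReal.coe_one, ENNReal.ofReal_lt_one]
        have h3 := hq1 k
        have h4 := h2m.trans h3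
        rw [div_lt_iff₀ hm0] at h3
        rw [div_lt_one (mul_pos hm0 (by linarith))]
        linarith
      have h5 := hausdorffMeasure_of_dimH_lt h2
      rw [NNReal.coe_one, hausdorffMeasure_real] at h5
      rw [ae_iff]
      simpa only [ne_eq, not_not] using h5
    filter_upwards [ae_all_iff.2 hnull] with a ha q hq
    have hq0 : 0 < q := by linarith
    rw [key u (fun a => (hu a).1) a q hq0]
    obtain ⟨k, hk⟩ := exists_nat_gt (1 / (m * (q - 2 * ((m : ℝ) + 1) / m)))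
    have hd : 0 < q - 2 * ((m : ℝ) + 1) / m := by linarith
    have hkq : qk k ≤ q := by
      rw [hqk]
      simp only
      have h1 : 1 / (m * ((k : ℝ) + 1)) ≤ q - 2 * ((m : ℝ) + 1) / m := by
        rw [div_lt_iff₀ (mul_pos hm0 hd)] at hk
        rw [div_le_iff₀ (by positivity)]
        nlinarith [mul_pos hm0 hd]
      linarith
    have hqk2 : 2 < qk k := h2m.trans (hq1 k)
    have hB : ∃ B : ℝ≥0∞, B ≠ ⊤ ∧ ∀ t x, ‖Pool.Agent.Helper969.TS.X φ u a t x‖ₑ ≤ B := by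
      have hun := Pool.Agent.Helper969.TS.sol_norm hf.1 hf.2.ne (sol_of hu) a
      refine ⟨(∫⁻ x, ‖Pool.Agent.Helper969.TS.ch φ x‖ₑ ^ 2) ^ (1 / 2 : ℝ) *
        (∫⁻ x, ‖f x‖ₑ ^ 2) ^ (1 / 2 : ℝ), ENNReal.mul_ne_top
        (ENNReal.rpow_ne_top_of_nonneg (by norm_num) hφ.cs)
        (ENNReal.rpow_ne_top_of_nonneg (by norm_num) hf.2.ne), fun t x => ?_⟩
      refine (enorm_integral_le_lintegral_enorm _).trans ?_
      simp only [enorm_mul, Pool.Agent.W771.MD.em_enorm, mul_one]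
      refine (Pool.Agent.Helper969.TS.cs2 volume (fun ξ => ‖Pool.Agent.Helper969.TS.ch φ ξ‖ₑ)
        (fun ξ => ‖u a ξ‖ₑ) hχm.enorm.aemeasurable (hu a).1.enorm.aemeasurable).trans ?_
      exact mul_le_mul' le_rfl (ENNReal.rpow_le_rpow hun (by norm_num))
    obtain ⟨B, hBt, hB⟩ := hB
    have hBq : B ^ (q - qk k) ≠ ⊤ := ENNReal.rpow_ne_top_of_nonneg (by linarith) hBt
    refine ne_top_of_le_ne_top (ENNReal.mul_ne_top hBq (ha k)) ?_
    rw [← lintegral_const_mul' _ _ hBq]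
    refine lintegral_mono fun t => ?_
    simp only
    rw [← lintegral_const_mul' _ _ hBq]
    refine lintegral_mono fun x => ?_
    have e : ‖Pool.Agent.Helper969.TS.X φ u a t x‖ₑ ^ q =
        ‖Pool.Agent.Helper969.TS.X φ u a t x‖ₑ ^ (q - qk k) *
          ‖Pool.Agent.Helper969.TS.X φ u a t x‖ₑ ^ qk k := by
      rw [← ENNReal.rpow_add_of_nonneg _ _ (by linarith) (by linarith)]
      congr 1
      ring
    simp only
    rw [e]
    exact mul_le_mul' (ENNReal.rpow_le_rpow (hB t x) (by linarith)) le_rfl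
  · intro q hq hq2 f u hf hu
    have hq0 : 0 < q := by linarith
    refine le_trans (dimH_mono fun a ha => ?_) (hdim q hq hq2 f u hf hu)
    have ha' : ¬ MemLp (ext fun ξ => Pool.Agent.Helper969.TS.ch φ ξ * u a ξ) (ENNReal.ofReal q) := ha
    rw [key u (fun a => (hu a).1) a q hq0, not_not] at ha'
    exact ha'
  · intro q α hq hq2 hα
    obtain ⟨C, hC, h⟩ := Pool.Agent.Helper969.TS.avg_gen hm q α hq hq2 hα φ hφ
    refine ⟨C.toNNReal, ?_⟩
    intro f u hf hu A μ c hμ hsupp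
    have h1 := h f u hf.1 hf.2.ne (sol_of hu) A μ c hμ hsupp
    rw [ENNReal.coe_toNNReal hC]
    refine le_trans (le_of_eq ?_) h1
    congr 1
    ext a
    exact (lint_eq hχm (fun a => (hu a).1) a q).2

end Pool.Agent.Results.MP_b7167f_an.TimeSlices
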