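import Pool.Agent.Helper184.PH.Para2

/-!
# The restriction conjecture for the paraboloid: typical continuous phases are universally worst

Let `n = d - 1 ≥ 1`, `q ≥ 1`, and let `ext` be the extension operator of the truncated paraboloid in
`ℝ^d`. We consider the functions `e^{iφ} 1_U`, `φ` a bounded continuous real function, `U` open.
For every loss `τ ≥ 0` there is a zero-one law: either the estimate

  `∫_{B_R} |ext f|^q ≤ C R^τ`  for all `|f| ≤ 1` and all `R ≥ 1`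

holds, or for the typical phase `φ` (all `φ` outside a set of the first category) the estimate fails
for the single functions `e^{iφ} 1_U`, for all open sets `U` which meet the cube, whatever the
constant. So there is a critical exponent for every `q`, and it is the exact exponent of growth of
`ext (e^{iφ} 1_U)` for the typical `φ` and all `U` at once; and the restriction conjecture (`τ = 0`) in
dimension `d` holds if and only if the phases `φ` for which, for every `q > 2d/(d-1)`, there is some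
`U` with `ext (e^{iφ} 1_U)` in `L^q` form a set of the second category.
-/

open MeasureTheory Set Filter Metric
open scoped ENNReal NNReal Topology BoundedContinuousFunction

namespace Pool.Agent.Results.MP_b7167f_an.TypicalPhases

/-- Euclidean space `ℝ^n` -/
abbrev Eu (n : ℕ) := EuclideanSpace ℝ (Fin n)

/-- the cube `[-1,1]^n` -/
def cube (n : ℕ) : Set (Eu n) := {ξ | ∀ i, |ξ i| ≤ 1}

/-- the extension operator of the paraboloid in `ℝ^d = ℝ^n × ℝ` -/
noncomputable def ext {n : ℕ} (f : Eu n → ℂ) (x : Eu n × ℝ) : ℂ :=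
  ∫ ξ in cube n, f ξ *
    Complex.exp ((2 * Real.pi * (inner ℝ ξ x.1 + ‖ξ‖ ^ 2 * x.2) : ℝ) * Complex.I)

/-- the function `e^{iφ} 1_U` -/
noncomputable def wave {n : ℕ} (φ : Eu n →ᵇ ℝ) (U : Set (Eu n)) : Eu n → ℂ :=
  U.indicator fun ξ => Complex.exp (φ ξ * Complex.I)

/-- the integral of `|F|^q` over `|x| ≤ R`, `|t| ≤ R` is at most `C R^τ` for all `R ≥ 1` -/
def Growth {n : ℕ} (q τ : ℝ) (F : Eu n × ℝ → ℂ) (C : ℝ≥0) : Prop :=
  ∀ R : ℝ, 1 ≤ R →
    ∫⁻ x in closedBall (0 : Eu n × ℝ) R, ‖F x‖ₑ ^ q ≤ C * ENNReal.ofReal (R ^ τ)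

/-- the extension estimate with the loss `R^τ` for all bounded functions -/
def Loss (n : ℕ) (q τ : ℝ) : Prop :=
  ∃ C : ℝ≥0, ∀ f : Eu n → ℂ, Measurable f → (∀ ξ, ‖f ξ‖ ≤ 1) → Growth q τ (ext f) C

/-- the extension estimate for all bounded functions -/
def Estimate (n : ℕ) (q : ℝ) : Prop :=
  ∃ C : ℝ≥0, ∀ f : Eu n → ℂ, Measurable f → (∀ ξ, ‖f ξ‖ ≤ 1) → (∫⁻ x, ‖ext f x‖ₑ ^ q) ≤ C

theorem cube_eq (n : ℕ) : cube n = Pool.Agent.Helper184.PH.cube n := rfl

theorem ext_eq {n : ℕ} (f : Eu n → ℂ) : ext f = Pool.Agent.Helper184.PH.TP f := rfl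

theorem loss_iff (n : ℕ) (q τ : ℝ) : Loss n q τ ↔ Pool.Agent.Helper184.PH.Est n q τ := Iff.rfl

theorem estimate_iff {n : ℕ} {q : ℝ} : Estimate n q ↔ Loss n q 0 := by
  constructor
  · rintro ⟨C, hC⟩
    refine ⟨C, fun f hf hf1 R _ => ?_⟩
    rw [Real.rpow_zero, ENNReal.ofReal_one, mul_one]
    exact (setLIntegral_le_lintegral _ _).trans (hC f hf hf1)
  · rintro ⟨C, hC⟩
    refine ⟨C, fun f hf hf1 => ?_⟩
    have hm : Measurable (ext f) := (Pool.Agent.Helper184.PH.T_cont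
      (ν := (volume : Measure (Eu n)).restrict (Pool.Agent.Helper184.PH.cube n))
      Pool.Agent.Helper184.PH.KP_cont Pool.Agent.Helper184.PH.KP_norm hf hf1).measurable
    refine Pool.Agent.Helper184.PH.Gd_zero hm fun R hR => ?_
    have := hC f hf hf1 R hR
    rw [Real.rpow_zero, ENNReal.ofReal_one, mul_one] at this
    exact this

/-- the zero-one law -/
theorem zero_one {n : ℕ} {q τ : ℝ} (hq : 1 ≤ q) (hτ : 0 ≤ τ) (h : ¬ Loss n q τ) :
    ∀ᶠ φ : Eu n →ᵇ ℝ in residual _, ∀ U : Set (Eu n), IsOpen U → (U ∩ cube n).Nonempty →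
      ∀ C : ℝ≥0, ¬ Growth q τ (ext (wave φ U)) C := by
  filter_upwards [Pool.Agent.Helper184.PH.zero_one hq hτ h] with φ hφ U hU hne C hC
  exact hφ U hU hne ⟨C, hC⟩

/-- the wave is bounded by `1` -/
theorem wave_norm {n : ℕ} (φ : Eu n →ᵇ ℝ) (U : Set (Eu n)) (ξ : Eu n) : ‖wave φ U ξ‖ ≤ 1 :=
  Pool.Agent.Helper184.PH.ph_ind_norm U φ ξ

theorem wave_meas {n : ℕ} (φ : Eu n →ᵇ ℝ) {U : Set (Eu n)} (hU : IsOpen U) :
    Measurable (wave φ U) :=
  (Pool.Agent.Helper184.PH.ph_meas φ).indicator hU.measurableSet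

/-- the set of the phases for which some local piece is in `L^q` -/
def goodPhases (n : ℕ) (q : ℝ) : Set (Eu n →ᵇ ℝ) :=
  {φ | ∃ U : Set (Eu n), IsOpen U ∧ (U ∩ cube n).Nonempty ∧ (∫⁻ x, ‖ext (wave φ U) x‖ₑ ^ q) < ∞}

theorem good_meagre {n : ℕ} {q : ℝ} (hq : 1 ≤ q) (h : ¬ Estimate n q) :
    IsMeagre (goodPhases n q) := by
  rw [estimate_iff] at h
  show (goodPhases n q)ᶜ ∈ residual _
  filter_upwards [zero_one hq le_rfl h] with φ hφ
  rintro ⟨U, hU, hne, hfin⟩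
  refine hφ U hU hne (∫⁻ x, ‖ext (wave φ U) x‖ₑ ^ q).toNNReal fun R _ => ?_
  rw [Real.rpow_zero, ENNReal.ofReal_one, mul_one, ENNReal.coe_toNNReal hfin.ne]
  exact setLIntegral_le_lintegral _ _

theorem good_univ {n : ℕ} {q : ℝ} (h : Estimate n q) : goodPhases n q = univ := by
  obtain ⟨C, hC⟩ := h
  refine eq_univ_of_forall fun φ => ⟨univ, isOpen_univ, ⟨0, mem_univ _, fun i => by simp⟩, ?_⟩
  exact (hC _ (wave_meas φ isOpen_univ) (wave_norm φ univ)).trans_lt ENNReal.coe_lt_top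

theorem univ_not_meagre {n : ℕ} : ¬ IsMeagre (univ : Set (Eu n →ᵇ ℝ)) := fun h => by
  have h1 : (univ : Set (Eu n →ᵇ ℝ))ᶜ ∈ residual _ := h
  obtain ⟨φ, hφ⟩ := (dense_of_mem_residual h1).nonempty
  exact hφ (mem_univ _)

theorem growth_mono {n : ℕ} {q τ τ' : ℝ} (h : τ ≤ τ') {F : Eu n × ℝ → ℂ} {C : ℝ≥0}
    (hF : Growth q τ F C) : Growth q τ' F C := by
  refine fun R hR => (hF R hR).trans ?_
  gcongr

/-- **Typical phases are universally worst.** -/
theorem result (n : ℕ) (hn : 1 ≤ n) :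
    -- zero-one law with loss, critical exponent, typical growth
    (∀ q : ℝ, 1 ≤ q → ∃ c : ℝ, 0 ≤ c ∧ c ≤ n + 1 ∧ (∀ τ : ℝ, c < τ → Loss n q τ) ∧
      (∀ τ : ℝ, 0 ≤ τ → τ < c → ¬ Loss n q τ) ∧
      ∀ᶠ φ : Eu n →ᵇ ℝ in residual _, ∀ U : Set (Eu n), IsOpen U → (U ∩ cube n).Nonempty →
        ∀ τ : ℝ, 0 ≤ τ → τ < c → ∀ C : ℝ≥0, ¬ Growth q τ (ext (wave φ U)) C) ∧
    (∀ q τ : ℝ, 1 ≤ q → 0 ≤ τ → ¬ Loss n q τ →
      ∀ᶠ φ : Eu n →ᵇ ℝ in residual _, ∀ U : Set (Eu n), IsOpen U → (U ∩ cube n).Nonempty →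
        ∀ C : ℝ≥0, ¬ Growth q τ (ext (wave φ U)) C) ∧
    -- no loss
    (∀ q : ℝ, 1 ≤ q → (Estimate n q ↔ ¬ IsMeagre (goodPhases n q))) ∧
    -- the full range of the restriction conjecture in dimension `d = n + 1`
    ((∀ q : ℝ, 2 * ((n : ℝ) + 1) / n < q → Estimate n q) ↔
      ¬ IsMeagre {φ : Eu n →ᵇ ℝ | ∀ q : ℝ, 2 * ((n : ℝ) + 1) / n < q → φ ∈ goodPhases n q}) := by
  refine ⟨fun q hq => ?_, fun q τ hq hτ h => zero_one hq hτ h, fun q hq => ?_, ?_⟩
  · set S : Set ℝ := {τ | 0 ≤ τ ∧ Loss n q τ} with hS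
    have hmem : ((n : ℝ) + 1) ∈ S :=
      ⟨by positivity, Pool.Agent.Helper184.PH.Est_trivial (by linarith)⟩
    have hbdd : BddBelow S := ⟨0, fun τ hτ => hτ.1⟩
    have hnot : ∀ τ : ℝ, 0 ≤ τ → τ < sInf S → ¬ Loss n q τ := fun τ h0 hlt hl =>
      notMem_of_lt_csInf hlt hbdd ⟨h0, hl⟩
    refine ⟨sInf S, le_csInf ⟨_, hmem⟩ fun τ hτ => hτ.1, csInf_le hbdd hmem, fun τ hτ => ?_,
      hnot, ?_⟩
    · obtain ⟨s, hs, hlt⟩ := exists_lt_of_csInf_lt ⟨_, hmem⟩ hτ
      exact Pool.Agent.Helper184.PH.Est_mono hlt.le hs.2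
    · have key : ∀ r : ℚ, ∀ᶠ φ : Eu n →ᵇ ℝ in residual _, (0 : ℝ) ≤ r → (r : ℝ) < sInf S →
          ∀ U : Set (Eu n), IsOpen U → (U ∩ cube n).Nonempty →
            ∀ C : ℝ≥0, ¬ Growth q r (ext (wave φ U)) C := fun r => by
        by_cases h : (0 : ℝ) ≤ r ∧ (r : ℝ) < sInf S
        · filter_upwards [zero_one hq h.1 (hnot r h.1 h.2)] with φ hφ _ _ using hφ
        · exact Eventually.of_forall fun φ h0 h1 => absurd ⟨h0, h1⟩ h
      filter_upwards [eventually_countable_forall.2 key] with φ hφ U hU hne τ h0 hlt C hC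
      obtain ⟨r, hr1, hr2⟩ := exists_rat_btwn hlt
      exact hφ r (h0.trans hr1.le) hr2 U hU hne C (growth_mono hr1.le hC)
  · constructor
    · intro h
      rw [good_univ h]
      exact univ_not_meagre
    · intro h
      by_contra hcon
      exact h (good_meagre hq hcon)
  · have hn' : (0 : ℝ) < n := by exact_mod_cast hn
    have h2 : (1 : ℝ) ≤ 2 * ((n : ℝ) + 1) / n := by
      rw [le_div_iff₀ hn']; linarith
    constructor
    · intro h
      have e : {φ : Eu n →ᵇ ℝ | ∀ q : ℝ, 2 * ((n : ℝ) + 1) / n < q → φ ∈ goodPhases n q} =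
          univ := eq_univ_of_forall fun φ q hq => by rw [good_univ (h q hq)]; exact mem_univ _
      rw [e]
      exact univ_not_meagre
    · intro h q hq
      by_contra hcon
      exact h ((good_meagre (h2.trans hq.le) hcon).mono fun φ hφ => hφ q hq)

end Pool.Agent.Results.MP_b7167f_an.TypicalPhases
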